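import Pool.Agent.Q7.LK.Stm

/-!
# Project LK (helper7): elementary lemmas for the jobs EE, SH1 (helper14)
-/

set_option autoImplicit false

namespace Pool.Agent.Q14.LK

open NumberField IsDedekindDomain Finset
open Pool.Agent.Q7.LK
open Pool.Agent.Q283.LQ (Sm)

variable {p : ℕ} [Fact p.Prime] {F : Type} [Field F] [NumberField F]

theorem lpw_ne (hB : S_BAS) {v : HeightOneSpectrum (𝓞 F)} {a : F} (h : Lpw p v a) : a ≠ 0 := ((hB p F v).1 a h).1

theorem lpw_vl (hB : S_BAS) {v : HeightOneSpectrum (𝓞 F)} {a : F} (h : Lpw p v a) : vl p v a = 0 := ((hB p F v).1 a h).2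

theorem lpw_mul (hB : S_BAS) {v : HeightOneSpectrum (𝓞 F)} {a b : F} (ha : Lpw p v a) (hb : Lpw p v b) :
    Lpw p v (a * b) := (hB p F v).2.1 a b ha hb

theorem lpw_pow (hB : S_BAS) (v : HeightOneSpectrum (𝓞 F)) {a : F} (ha : a ≠ 0) : Lpw p v (a ^ p) :=
  (hB p F v).2.2.1 a ha

theorem lpw_inv (hB : S_BAS) {v : HeightOneSpectrum (𝓞 F)} {a : F} (ha : Lpw p v a) : Lpw p v a⁻¹ :=
  (hB p F v).2.2.2.1 a ha

theorem vl_mul (hB : S_BAS) (v : HeightOneSpectrum (𝓞 F)) {a b : F} (ha : a ≠ 0) (hb : b ≠ 0) :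
    vl p v (a * b) = vl p v a + vl p v b := (hB p F v).2.2.2.2.1 a b ha hb

theorem lpw_one (hB : S_BAS) (v : HeightOneSpectrum (𝓞 F)) : Lpw p v (1 : F) := by
  have h := lpw_pow (p := p) hB v (one_ne_zero (α := F))
  rwa [one_pow] at h

theorem vl_one (hB : S_BAS) (v : HeightOneSpectrum (𝓞 F)) : vl p v (1 : F) = 0 := lpw_vl hB (lpw_one hB v)

theorem vl_inv (hB : S_BAS) (v : HeightOneSpectrum (𝓞 F)) {a : F} (ha : a ≠ 0) : vl p v a⁻¹ = -vl p v a := by
  have h1 := vl_mul (p := p) hB v ha (inv_ne_zero ha)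
  rw [mul_inv_cancel₀ ha, vl_one hB] at h1
  exact (neg_eq_of_add_eq_zero_right h1.symm).symm

theorem vl_div (hB : S_BAS) (v : HeightOneSpectrum (𝓞 F)) {a b : F} (ha : a ≠ 0) (hb : b ≠ 0) :
    vl p v (a / b) = vl p v a - vl p v b := by
  rw [div_eq_mul_inv, vl_mul hB v ha (inv_ne_zero hb), vl_inv hB v hb, sub_eq_add_neg]

theorem vl_pow (hB : S_BAS) (v : HeightOneSpectrum (𝓞 F)) {a : F} (ha : a ≠ 0) (n : ℕ) :
    vl p v (a ^ n) = n * vl p v a := by
  induction n with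
  | zero => rw [pow_zero, vl_one hB, Nat.cast_zero, zero_mul]
  | succ n ih =>
    rw [pow_succ, vl_mul hB v (pow_ne_zero n ha) ha, ih]
    push_cast
    ring

theorem vl_prod (hB : S_BAS) (v : HeightOneSpectrum (𝓞 F)) {ι : Type} (s : Finset ι) (a : ι → F) (ha : ∀ i ∈ s, a i ≠ 0) :
    vl p v (∏ i ∈ s, a i) = ∑ i ∈ s, vl p v (a i) := by
  classical
  induction s using Finset.induction_on with
  | empty => rw [prod_empty, sum_empty, vl_one hB]
  | insert i s hi ih =>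
    rw [prod_insert hi, sum_insert hi, vl_mul hB v (ha i (mem_insert_self i s))
      (prod_ne_zero_iff.2 fun j hj => ha j (mem_insert_of_mem hj)), ih fun j hj => ha j (mem_insert_of_mem hj)]

theorem nn_mul (hB : S_BAS) {y : ℕ} {a b : F} (ha : Nn p y a) (hb : Nn p y b) : Nn p y (a * b) :=
  ⟨mul_ne_zero ha.1 hb.1, fun v hv => lpw_mul hB (ha.2 v hv) (hb.2 v hv)⟩

theorem nn_inv (hB : S_BAS) {y : ℕ} {a : F} (ha : Nn p y a) : Nn p y a⁻¹ :=
  ⟨inv_ne_zero ha.1, fun v hv => lpw_inv hB (ha.2 v hv)⟩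

theorem nn_div (hB : S_BAS) {y : ℕ} {a b : F} (ha : Nn p y a) (hb : Nn p y b) : Nn p y (a / b) := by
  rw [div_eq_mul_inv]
  exact nn_mul hB ha (nn_inv hB hb)

theorem nn_pp (hB : S_BAS) (y : ℕ) {a : F} (ha : a ≠ 0) : Nn p y (a ^ p) :=
  ⟨pow_ne_zero p ha, fun v _ => lpw_pow hB v ha⟩

theorem nn_one (hB : S_BAS) (y : ℕ) : Nn p y (1 : F) := by
  have h := nn_pp (p := p) hB y (one_ne_zero (α := F))
  rwa [one_pow] at h

theorem nn_npow (hB : S_BAS) {y : ℕ} {a : F} (ha : Nn p y a) (n : ℕ) : Nn p y (a ^ n) := by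
  induction n with
  | zero =>
    rw [pow_zero]
    exact nn_one hB y
  | succ n ih =>
    rw [pow_succ]
    exact nn_mul hB ih ha

theorem nn_of_mul_pp (hB : S_BAS) {y : ℕ} {a x : F} (hx : x ≠ 0) (h : Nn p y (a * x ^ p)) : Nn p y a := by
  have h1 := nn_div hB h (nn_pp (p := p) hB y hx)
  rwa [mul_div_assoc, div_self (pow_ne_zero p hx), mul_one] at h1

theorem nn_of_isPow (hB : S_BAS) (y : ℕ) {a : F} (ha : a ≠ 0) (h : IsPow p a) : Nn p y a := by
  obtain ⟨x, hx⟩ := h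
  rw [hx]
  apply nn_pp hB y
  rintro rfl
  rw [zero_pow (Fact.out : p.Prime).ne_zero] at hx
  exact ha hx

theorem nn_prod (hB : S_BAS) {y : ℕ} {ι : Type} (s : Finset ι) (a : ι → F) (ha : ∀ i ∈ s, Nn p y (a i)) :
    Nn p y (∏ i ∈ s, a i) := by
  classical
  induction s using Finset.induction_on with
  | empty =>
    rw [prod_empty]
    exact nn_one hB y
  | insert i s hi ih =>
    rw [prod_insert hi]
    exact nn_mul hB (ha i (mem_insert_self i s)) (ih fun j hj => ha j (mem_insert_of_mem hj))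

omit [NumberField F] [Fact p.Prime] in
theorem mon_ne {f : ℕ} {u : Fin f → F} (hu : ∀ l, u l ≠ 0) (c : Fin f → ZMod p) : mon u c ≠ 0 :=
  prod_ne_zero_iff.2 fun l _ => pow_ne_zero _ (hu l)

omit [NumberField F] in
theorem mon_zero {f : ℕ} {u : Fin f → F} : mon u (0 : Fin f → ZMod p) = 1 := by
  unfold mon
  refine prod_eq_one fun l _ => ?_
  rw [Pi.zero_apply, ZMod.val_zero, pow_zero]

omit [NumberField F] in
theorem mon_add {f : ℕ} {u : Fin f → F} (hu : ∀ l, u l ≠ 0) (c c' : Fin f → ZMod p) :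
    ∃ x : F, x ≠ 0 ∧ mon u c * mon u c' = mon u (c + c') * x ^ p := by
  refine ⟨∏ l, u l ^ (((c l).val + (c' l).val) / p), prod_ne_zero_iff.2 fun l _ => pow_ne_zero _ (hu l), ?_⟩
  unfold mon
  rw [← prod_pow, ← prod_mul_distrib, ← prod_mul_distrib]
  refine prod_congr rfl fun l _ => ?_
  rw [← pow_mul, ← pow_add, ← pow_add, Pi.add_apply, ZMod.val_add]
  congr 1
  rw [mul_comm]
  exact (Nat.mod_add_div _ _).symm

omit [NumberField F] in
theorem mon_sum {f : ℕ} {u : Fin f → F} (hu : ∀ l, u l ≠ 0) {ι : Type} (s : Finset ι) (c : ι → Fin f → ZMod p) :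
    ∃ x : F, x ≠ 0 ∧ ∏ i ∈ s, mon u (c i) = mon u (∑ i ∈ s, c i) * x ^ p := by
  classical
  induction s using Finset.induction_on with
  | empty => exact ⟨1, one_ne_zero, by rw [prod_empty, sum_empty, mon_zero, one_pow, mul_one]⟩
  | insert i s hi ih =>
    obtain ⟨x, hx, h1⟩ := ih
    obtain ⟨z, hz, h2⟩ := mon_add hu (c i) (∑ i ∈ s, c i)
    refine ⟨z * x, mul_ne_zero hz hx, ?_⟩
    rw [prod_insert hi, sum_insert hi, h1, ← mul_assoc, h2, mul_pow, mul_assoc]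

omit [NumberField F] in
theorem mon_smul {f : ℕ} {u : Fin f → F} (hu : ∀ l, u l ≠ 0) (a : ZMod p) (c : Fin f → ZMod p) :
    ∃ x : F, x ≠ 0 ∧ (mon u c) ^ a.val = mon u (a • c) * x ^ p := by
  obtain ⟨x, hx, h⟩ := mon_sum hu (range a.val) (fun _ => c)
  refine ⟨x, hx, ?_⟩
  rw [prod_const, card_range, sum_const, card_range] at h
  rw [h]
  congr 2
  rw [← Nat.cast_smul_eq_nsmul (ZMod p), ZMod.natCast_val, ZMod.cast_id', id]

theorem vl_mon (hB : S_BAS) {f : ℕ} {u : Fin f → F} (hu : ∀ l, u l ≠ 0) (v : HeightOneSpectrum (𝓞 F))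
    (h : ∀ l, vl p v (u l) = 0) (c : Fin f → ZMod p) : vl p v (mon u c) = 0 := by
  unfold mon
  rw [vl_prod hB v _ _ fun l _ => pow_ne_zero _ (hu l)]
  refine sum_eq_zero fun l _ => ?_
  rw [vl_pow hB v (hu l), h l, mul_zero]

end Pool.Agent.Q14.LK
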