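import Pool.Agent.Q7.LK.Stm2
import Pool.Agent.Q14.LK.Bas

/-!
# Project LK (helper7), job AUN (helper14): the number of the classes `AU`
-/

set_option autoImplicit false

namespace Pool.Agent.Q14.LK

open NumberField IsDedekindDomain Finset
open Pool.Agent.Q7.LK

namespace AUNa

variable {p : ℕ} [Fact p.Prime] {F : Type} [Field F] [NumberField F]

/-- a homomorphism which is nontrivial and vanishes on the local `p`-th powers and on `B` -/
theorem count (hB : S_BAS) (hLV : S_LOCV) (hp2 : p ≠ 2) (ζ : F) (hζ : IsPrimitiveRoot ζ p) (v : HeightOneSpectrum (𝓞 F))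
    (χ : F → ZMod p) (hχ : ∀ a b, a ≠ 0 → b ≠ 0 → χ (a * b) = χ a + χ b) (hχ0 : ∀ a, Lpw p v a → χ a = 0)
    (a0 : F) (ha0 : a0 ≠ 0) (hχa : χ a0 ≠ 0) (B : Finset F) (hBne : ∀ b ∈ B, b ≠ 0) (hBχ : ∀ b ∈ B, χ b = 0)
    (hBL : ∀ b ∈ B, ∀ b' ∈ B, b ≠ b' → ¬ Lpw p v (b / b')) : B.card ≤ p ^ (dv p v + 1) := by
  classical
  have hp : p.Prime := Fact.out
  have hχ1 : χ 1 = 0 := hχ0 1 (lpw_one hB v)
  have hχp : ∀ n : ℕ, χ (a0 ^ n) = n * χ a0 := by
    intro n
    induction n with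
    | zero => rw [pow_zero, hχ1, Nat.cast_zero, zero_mul]
    | succ n ih =>
      rw [pow_succ, hχ _ _ (pow_ne_zero n ha0) ha0, ih]
      push_cast
      ring
  have hχi : ∀ a, a ≠ 0 → χ a⁻¹ = -χ a := by
    intro a ha
    have h1 := hχ a a⁻¹ ha (inv_ne_zero ha)
    rw [mul_inv_cancel₀ ha, hχ1] at h1
    exact (neg_eq_of_add_eq_zero_right h1.symm).symm
  -- the pairs
  have key : ∀ b ∈ B, ∀ b' ∈ B, ∀ i < p, ∀ j < p, Lpw p v (b * a0 ^ i / (b' * a0 ^ j)) → b = b' ∧ i = j := by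
    intro b hb b' hb' i hi j hj hl
    have hb0 := hBne b hb
    have hb0' := hBne b' hb'
    have h1 := hχ0 _ hl
    rw [div_eq_mul_inv, hχ _ _ (mul_ne_zero hb0 (pow_ne_zero i ha0))
      (inv_ne_zero (mul_ne_zero hb0' (pow_ne_zero j ha0))), hχi _ (mul_ne_zero hb0' (pow_ne_zero j ha0)),
      hχ _ _ hb0 (pow_ne_zero i ha0), hχ _ _ hb0' (pow_ne_zero j ha0), hχp, hχp, hBχ b hb, hBχ b' hb'] at h1
    have h2 : ((i : ZMod p) - j) * χ a0 = 0 := by linear_combination h1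
    have h3 : (i : ZMod p) = (j : ZMod p) := by
      rcases mul_eq_zero.1 h2 with h4 | h4
      · exact sub_eq_zero.1 h4
      · exact absurd h4 hχa
    have h4 : i = j := by
      have h5 := (ZMod.natCast_eq_natCast_iff' i j p).1 h3
      rwa [Nat.mod_eq_of_lt hi, Nat.mod_eq_of_lt hj] at h5
    refine ⟨?_, h4⟩
    by_contra hne
    apply hBL b hb b' hb' hne
    have h5 : b * a0 ^ i / (b' * a0 ^ j) = b / b' := by
      rw [h4]
      have := pow_ne_zero j ha0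
      field_simp
    rwa [h5] at hl
  obtain ⟨B', hB'⟩ : ∃ B' : Finset F, B' = (B ×ˢ range p).image (fun x => x.1 * a0 ^ x.2) := ⟨_, rfl⟩
  have hinj : Set.InjOn (fun x : F × ℕ => x.1 * a0 ^ x.2) ((B ×ˢ range p : Finset (F × ℕ)) : Set (F × ℕ)) := by
    rintro ⟨b, i⟩ hx ⟨b', j⟩ hy hxy
    rw [mem_coe, mem_product, mem_range] at hx hy
    obtain ⟨hb, hi⟩ := hx
    obtain ⟨hb', hj⟩ := hy
    simp only at hb hi hb' hj hxy
    have h1 : Lpw p v (b * a0 ^ i / (b' * a0 ^ j)) := by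
      rw [hxy, div_self (mul_ne_zero (hBne b' hb') (pow_ne_zero j ha0))]
      exact lpw_one hB v
    obtain ⟨h2, h3⟩ := key b hb b' hb' i hi j hj h1
    rw [h2, h3]
  have hcard : B'.card = B.card * p := by
    rw [hB', card_image_of_injOn hinj, card_product, card_range]
  have h1 := hLV p hp2 F ζ hζ v B' (by
    intro b hb
    rw [hB', mem_image] at hb
    obtain ⟨⟨b, i⟩, hx, rfl⟩ := hb
    rw [mem_product] at hx
    exact mul_ne_zero (hBne b hx.1) (pow_ne_zero i ha0)) (by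
    intro x hx x' hx' hne hl
    rw [hB', mem_image] at hx hx'
    obtain ⟨⟨b, i⟩, hx, rfl⟩ := hx
    obtain ⟨⟨b', j⟩, hx', rfl⟩ := hx'
    rw [mem_product, mem_range] at hx hx'
    simp only at hx hx' hne hl
    obtain ⟨h2, h3⟩ := key b hx.1 b' hx'.1 i hx.2 j hx'.2 hl
    apply hne
    rw [h2, h3])
  rw [hcard] at h1
  have h2 : p ^ (2 + dv p v) = p ^ (dv p v + 1) * p := by
    rw [← pow_succ]
    congr 1
    ring
  rw [h2] at h1
  exact Nat.le_of_mul_le_mul_right h1 hp.pos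

end AUNa

open AUNa

/-- **JOB AUN** -/
theorem aun : S_BAS → S_LOCV → S_HS2 → S_NDG → S_NRM → S_AUN := by
  intro hB hLV hHS hND hNR p _ hp2 F _ _ ζ hζ v D hD B hBA hBL
  by_cases hLD : Lpw p v D
  · -- `D` is a local `p`-th power
    obtain ⟨π, hπ⟩ := v.valuation_exists_uniformizer F
    have hπ0 : π ≠ 0 := by
      rintro rfl
      rw [map_zero] at hπ
      exact WithZero.exp_ne_zero hπ.symm
    have hvl : vl p v π = 1 := by
      unfold vl
      rw [hπ, WithZero.log_exp]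
      push_cast
      ring
    refine count hB hLV hp2 ζ hζ v (vl p v) (fun a b ha hb => vl_mul hB v ha hb) (fun a ha => lpw_vl hB ha)
      π hπ0 ?_ B (fun b hb => (hBA b hb).1) (fun b hb => (hBA b hb).2.2 hLD) hBL
    rw [hvl]
    exact one_ne_zero
  · obtain ⟨t, h1, h2, h3, h4, h5, h6⟩ := hHS p hp2 F ζ hζ
    have hH : Hilb p ζ t := ⟨h1, h2, h3, h4, h5, h6⟩
    have h7 : ∃ a0 : F, a0 ≠ 0 ∧ t v a0 D ≠ 0 := by
      by_contra hcon
      push Not at hcon
      exact hLD (hND p hp2 F ζ hζ t hH v D hD hcon)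
    obtain ⟨a0, ha0, hta⟩ := h7
    refine count hB hLV hp2 ζ hζ v (fun a => t v a D) (fun a b ha hb => h2 v a b D ha hb hD)
      (fun a ha => h4 v a D ha hD) a0 ha0 hta B (fun b hb => (hBA b hb).1) ?_ hBL
    intro b hb
    exact hNR p hp2 F ζ hζ t hH v D hD hLD b (hBA b hb).1 ((hBA b hb).2.1 hLD)

end Pool.Agent.Q14.LK
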