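import Pool.Agent.Q7.LK.Stm2

/-!
# Project LK (helper7), job CR2U (helper14): the classes at the places without condition
-/

set_option autoImplicit false

namespace Pool.Agent.Q14.LK

open NumberField IsDedekindDomain Polynomial
open scoped TensorProduct
open Pool.Agent.Q7.LK

namespace CR2Ua

/-- `L` is `F[X] / (X ^ p - d)` -/
theorem eqv {p : ℕ} [Fact p.Prime] {F L : Type} [Field F] [Field L] [Algebra F L] {d : F} (hK : Kum p F L d)
    (hd : ¬ IsPow p d) : Nonempty (AdjoinRoot (X ^ p - C d : F[X]) ≃ₐ[F] L) := by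
  have hp : p.Prime := Fact.out
  obtain ⟨x, hx⟩ := hK.root
  have hirr : Irreducible (X ^ p - C d : F[X]) := X_pow_sub_C_irreducible_of_prime hp (by
    intro b hb
    exact hd ⟨b, hb.symm⟩)
  have hfact : Fact (Irreducible (X ^ p - C d : F[X])) := ⟨hirr⟩
  have hfd : FiniteDimensional F L := FiniteDimensional.of_finrank_pos (by rw [hK.deg]; exact hp.pos)
  obtain ⟨φ, hφ⟩ : ∃ φ : AdjoinRoot (X ^ p - C d : F[X]) →ₐ[F] L, True :=
    ⟨AdjoinRoot.liftAlgHom _ (Algebra.ofId F L) x (by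
      rw [eval₂_sub, eval₂_pow, eval₂_X, eval₂_C, hx]
      exact sub_self _), trivial⟩
  have hne : (X ^ p - C d : F[X]) ≠ 0 := hirr.ne_zero
  have hfd2 : FiniteDimensional F (AdjoinRoot (X ^ p - C d : F[X])) := (AdjoinRoot.powerBasis hne).finite
  have hrank : Module.finrank F (AdjoinRoot (X ^ p - C d : F[X])) = Module.finrank F L := by
    rw [hK.deg, (AdjoinRoot.powerBasis hne).finrank, AdjoinRoot.powerBasis_dim, natDegree_X_pow_sub_C]
  have hinj : Function.Injective φ := φ.toRingHom.injective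
  have hsur : Function.Surjective φ.toLinearMap :=
    (LinearMap.injective_iff_surjective_of_finrank_eq_finrank hrank).1 hinj
  exact ⟨AlgEquiv.ofBijective φ ⟨hinj, hsur⟩⟩

/-- base change of the norm -/
theorem norm_bc {F K : Type} [Field F] [Field K] [Algebra F K] (f : F[X]) (hf : f.Monic) (g : K[X])
    (hg : g = f.map (algebraMap F K)) (z : AdjoinRoot f) :
    ∃ s : AdjoinRoot g, Algebra.norm K s = algebraMap F K (Algebra.norm F z) := by
  have hgm : g.Monic := by rw [hg]; exact hf.map _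
  have hfd : Module.Finite F (AdjoinRoot f) := (AdjoinRoot.powerBasis' hf).finite
  have hfd2 : Module.Finite K (AdjoinRoot g) := (AdjoinRoot.powerBasis' hgm).finite
  obtain ⟨φ, hφ⟩ : ∃ φ : AdjoinRoot f →ₐ[F] AdjoinRoot g, φ (AdjoinRoot.root f) = AdjoinRoot.root g := by
    have h1 : eval₂ (Algebra.ofId F (AdjoinRoot g) : F →+* AdjoinRoot g) (AdjoinRoot.root g) f = 0 := by
      have h2 := AdjoinRoot.eval₂_root g
      have h3 : eval₂ (AdjoinRoot.of g) (AdjoinRoot.root g) (f.map (algebraMap F K)) = 0 := by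
        rw [← hg]
        exact h2
      rw [eval₂_map] at h3
      exact h3
    exact ⟨AdjoinRoot.liftAlgHom _ (Algebra.ofId F (AdjoinRoot g)) (AdjoinRoot.root g) h1, AdjoinRoot.liftAlgHom_root _ _ _ _⟩
  obtain ⟨Φ, hΦ⟩ : ∃ Φ : K ⊗[F] AdjoinRoot f →ₐ[K] AdjoinRoot g, ∀ z, Φ (1 ⊗ₜ z) = φ z := by
    refine ⟨Algebra.TensorProduct.lift (Algebra.ofId K (AdjoinRoot g)) φ (fun _ _ => Commute.all _ _), ?_⟩
    intro z
    rw [Algebra.TensorProduct.lift_tmul, map_one, one_mul]
  have hsur : Function.Surjective Φ := by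
    rw [← AlgHom.range_eq_top, eq_top_iff, ← AdjoinRoot.adjoinRoot_eq_top (f := g), Algebra.adjoin_le_iff]
    rintro x hx
    rw [Set.mem_singleton_iff] at hx
    rw [hx]
    exact ⟨1 ⊗ₜ AdjoinRoot.root f, (hΦ _).trans hφ⟩
  have hrank : Module.finrank K (K ⊗[F] AdjoinRoot f) = Module.finrank K (AdjoinRoot g) := by
    rw [Module.finrank_baseChange, (AdjoinRoot.powerBasis' hf).finrank, (AdjoinRoot.powerBasis' hgm).finrank,
      AdjoinRoot.powerBasis'_dim, AdjoinRoot.powerBasis'_dim, hg, natDegree_map]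
  have hinj : Function.Injective Φ.toLinearMap :=
    (LinearMap.injective_iff_surjective_of_finrank_eq_finrank hrank).2 hsur
  obtain ⟨Ψ, hΨ⟩ : ∃ Ψ : K ⊗[F] AdjoinRoot f ≃ₐ[K] AdjoinRoot g, ∀ z, Ψ z = Φ z :=
    ⟨AlgEquiv.ofBijective Φ ⟨hinj, hsur⟩, fun z => rfl⟩
  refine ⟨Ψ (1 ⊗ₜ z), ?_⟩
  rw [Algebra.norm_eq_of_algEquiv, Algebra.norm_apply, Algebra.norm_apply, ← LinearMap.det_baseChange]
  congr 1
  apply LinearMap.ext
  intro x
  induction x using TensorProduct.induction_on with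
  | zero => rw [map_zero, map_zero]
  | add a b ha hb => rw [map_add, map_add, ha, hb]
  | tmul a b =>
    rw [LinearMap.baseChange_tmul]
    simp

variable {F : Type} [Field F] [NumberField F]

theorem coe_eq (v : HeightOneSpectrum (𝓞 F)) (d : F) :
    algebraMap F (v.adicCompletion F) d = (d : v.adicCompletion F) := rfl

theorem val_eq (v : HeightOneSpectrum (𝓞 F)) (d : F) :
    Valued.v (algebraMap F (v.adicCompletion F) d) = v.valuation F d :=
  HeightOneSpectrum.valuedAdicCompletion_eq_valuation' v d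

/-- integral elements -/
theorem val_le {L : Type} [Field L] [NumberField L] (v : HeightOneSpectrum (𝓞 F)) (ψ : L →+* v.adicCompletion F)
    (x : 𝓞 L) : Valued.v (ψ (x : L)) ≤ 1 := by
  have h2 : IsIntegral (Valued.v : Valuation (v.adicCompletion F) _).integer (ψ (x : L)) := by
    obtain ⟨f, hf, hx⟩ := x.isIntegral_coe
    refine ⟨f.map (Int.castRingHom _), hf.map _, ?_⟩
    rw [eval₂_map]
    have h3 : (algebraMap (Valued.v : Valuation (v.adicCompletion F) _).integer (v.adicCompletion F)).comp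
        (Int.castRingHom _) = ψ.comp (algebraMap ℤ L) := RingHom.ext_int _ _
    rw [h3, ← hom_eval₂, hx, map_zero]
  exact Valuation.Integers.mem_of_integral (Valuation.integer.integers _) h2

theorem val_unit {L : Type} [Field L] [NumberField L] (v : HeightOneSpectrum (𝓞 F)) (ψ : L →+* v.adicCompletion F)
    (w : (𝓞 L)ˣ) : Valued.v (ψ ((w : 𝓞 L) : L)) = 1 := by
  have h1 := val_le v ψ (w : 𝓞 L)
  have h2 := val_le v ψ ((w⁻¹ : (𝓞 L)ˣ) : 𝓞 L)
  have h3 : ψ ((w : 𝓞 L) : L) * ψ (((w⁻¹ : (𝓞 L)ˣ) : 𝓞 L) : L) = 1 := by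
    rw [← map_mul]
    have h4 : ((w : 𝓞 L) : L) * (((w⁻¹ : (𝓞 L)ˣ) : 𝓞 L) : L) = 1 := by
      have h5 := map_mul (algebraMap (𝓞 L) L) (w : 𝓞 L) ((w⁻¹ : (𝓞 L)ˣ) : 𝓞 L)
      rw [Units.mul_inv, map_one] at h5
      exact h5.symm
    rw [h4, map_one]
  have h5 := congrArg (fun x => Valued.v x) h3
  simp only [map_mul, map_one] at h5
  refine le_antisymm h1 ?_
  calc (1 : WithZero (Multiplicative ℤ)) = Valued.v (ψ ((w : 𝓞 L) : L)) * Valued.v (ψ (((w⁻¹ : (𝓞 L)ˣ) : 𝓞 L) : L)) := h5.symm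
    _ ≤ Valued.v (ψ ((w : 𝓞 L) : L)) * 1 := mul_le_mul_right h2 _
    _ = _ := mul_one _

/-- the order of the group of automorphisms -/
theorem gal {p : ℕ} [Fact p.Prime] {L : Type} [Field L] [Algebra F L] (hdeg : Module.finrank F L = p)
    (σ : L ≃ₐ[F] L) (hσ : σ ≠ 1) : Nat.card (L ≃ₐ[F] L) = p ∧ IsGalois F L := by
  classical
  have hp : p.Prime := Fact.out
  have hfd : FiniteDimensional F L := FiniteDimensional.of_finrank_pos (by rw [hdeg]; exact hp.pos)
  have h1 := IntermediateField.finrank_fixedField_eq_card (F := F) (E := L) (⊤ : Subgroup (L ≃ₐ[F] L))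
  have h2 := Module.finrank_mul_finrank F (IntermediateField.fixedField (⊤ : Subgroup (L ≃ₐ[F] L))) L
  rw [h1, hdeg] at h2
  have h3 : Nat.card (⊤ : Subgroup (L ≃ₐ[F] L)) = Nat.card (L ≃ₐ[F] L) := Subgroup.card_top
  rw [h3] at h2
  have h4 : Nat.card (L ≃ₐ[F] L) ∣ p := ⟨_, by rw [mul_comm]; exact h2.symm⟩
  have h5 : Nat.card (L ≃ₐ[F] L) = p := by
    rcases (Nat.dvd_prime hp).1 h4 with h | h
    · exfalso
      rw [Nat.card_eq_one_iff_unique] at h
      obtain ⟨h6, _⟩ := h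
      exact hσ (Subsingleton.elim _ _)
    · exact h
  exact ⟨h5, IsGalois.of_card_aut_eq_finrank F L (by rw [hdeg]; exact h5)⟩

end CR2Ua

open CR2Ua

/-- **JOB CR2U** -/
theorem cr2u : S_BAS → S_CPL → S_CR2U := by
  intro hB hC p _ hp2 F L _ _ _ _ _ ζ d hζ hK hd σ hσ v w y hy hwy
  have hp : p.Prime := Fact.out
  obtain ⟨e⟩ := eqv hK hd
  have hfd : FiniteDimensional F L := FiniteDimensional.of_finrank_pos (by rw [hK.deg]; exact hp.pos)
  refine ⟨Algebra.norm_ne_zero_iff.2 hy, fun _ => ?_, fun hL => ?_⟩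
  · obtain ⟨z, rfl⟩ := e.surjective y
    rw [Algebra.norm_eq_of_algEquiv]
    exact norm_bc (X ^ p - C d : F[X]) (monic_X_pow_sub_C d hp.ne_zero) (X ^ p - C (d : v.adicCompletion F)) (by
      rw [Polynomial.map_sub, Polynomial.map_pow, map_X, map_C]
      rfl) z
  · obtain ⟨_, s, hs⟩ := (hC p F v d).1 hL
    obtain ⟨τ, _⟩ : ∃ τ : L →ₐ[F] v.adicCompletion F, True :=
      ⟨(AdjoinRoot.liftAlgHom (X ^ p - C d : F[X]) (Algebra.ofId F (v.adicCompletion F)) s (by
        rw [eval₂_sub, eval₂_pow, eval₂_X, eval₂_C, ← hs]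
        exact sub_self _)).comp e.symm.toAlgHom, trivial⟩
    obtain ⟨hcard, hG⟩ := gal hK.deg σ hσ
    have hiter : ∀ n : ℕ, Valued.v (τ ((σ ^ n) y)) = Valued.v (τ y) := by
      intro n
      induction n with
      | zero => rfl
      | succ n ih =>
        have h1 : (σ ^ (n + 1)) y = (σ ^ n) ((w : 𝓞 L) : L) * (σ ^ n) y := by
          rw [pow_succ, AlgEquiv.mul_apply, ← hwy, map_mul]
        rw [h1, map_mul, map_mul, ih]
        have h2 := val_unit v ((τ.toRingHom).comp (σ ^ n).toRingEquiv.toRingHom) w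
        have h3 : Valued.v (τ ((σ ^ n) ((w : 𝓞 L) : L))) = 1 := h2
        rw [h3, one_mul]
    have hall : ∀ g : L ≃ₐ[F] L, Valued.v (τ (g y)) = Valued.v (τ y) := by
      intro g
      obtain ⟨n, hn⟩ := mem_powers_of_prime_card hcard hσ (g' := g)
      rw [← hn]
      exact hiter n
    have h1 := Algebra.norm_eq_prod_automorphisms F y
    have h2 : Valued.v (algebraMap F (v.adicCompletion F) (Algebra.norm F y)) = Valued.v (τ y) ^ p := by
      have h3 : algebraMap F (v.adicCompletion F) (Algebra.norm F y) = τ (algebraMap F L (Algebra.norm F y)) :=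
        (τ.commutes _).symm
      rw [h3, h1, map_prod, map_prod, Finset.prod_congr rfl fun g _ => hall g, Finset.prod_const, Finset.card_univ,
        ← Nat.card_eq_fintype_card, hcard]
    rw [val_eq] at h2
    unfold vl
    rw [h2, WithZero.log_pow]
    simp

end Pool.Agent.Q14.LK
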