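import Pool.Agent.Q14.LK.Bas

/-!
# Project LK (helper7), job EE (helper14): the local classes
-/

set_option autoImplicit false

namespace Pool.Agent.Q14.LK

open NumberField IsDedekindDomain Finset
open Pool.Agent.Q7.LK
open Pool.Agent.Q283.LQ (Sm nS)

/-- **JOB EE** -/
theorem ee : S_AA → S_BAS → S_EE := by
  classical
  intro hAA hB p _ F _ _ ζ hζ y f u r π g B hf hfin A c hL D0 hD0
  have hp : p.Prime := Fact.out
  obtain ⟨E, hE⟩ : ∃ E : Finset ((Fin f → ZMod p) × (Fin f → ZMod p)), ∀ x, x ∈ E ↔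
      ∃ a, CondS p A y D0 a ∧ Nn p y (a * mon r x.1 * mon u x.2) :=
    ⟨Finset.univ.filter fun x => ∃ a, CondS p A y D0 a ∧ Nn p y (a * mon r x.1 * mon u x.2),
      fun x => by rw [Finset.mem_filter]; exact ⟨fun h => h.2, fun h => ⟨Finset.mem_univ x, h⟩⟩⟩
  refine ⟨E, fun a x ha hx => (hE x).2 ⟨a, ha, hx⟩, ?_⟩
  have hch : ∀ x : (Fin f → ZMod p) × (Fin f → ZMod p), ∃ a : F, x ∈ E →
      CondS p A y D0 a ∧ Nn p y (a * mon r x.1 * mon u x.2) := by
    intro x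
    by_cases hx : x ∈ E
    · obtain ⟨a, ha⟩ := (hE x).1 hx
      exact ⟨a, fun _ => ha⟩
    · exact ⟨0, fun h => absurd h hx⟩
  choose a ha using hch
  have hkey : ∀ x ∈ E, ∀ x' ∈ E, Nn p y (a x / a x') → x = x' := by
    intro x hx x' hx' h
    have h1 := nn_div hB (ha x hx).2 h
    have hax := (ha x hx).1.ne
    have hax' := (ha x' hx').1.ne
    have h2 : a x * mon r x.1 * mon u x.2 / (a x / a x') = a x' * mon r x.1 * mon u x.2 := by
      field_simp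
    rw [h2] at h1
    obtain ⟨z, _, hz⟩ := B.cls (a x') hax'
    exact (hz x h1).trans (hz x' (ha x' hx').2).symm
  have hinj : ∀ x ∈ E, ∀ x' ∈ E, a x = a x' → x = x' := by
    intro x hx x' hx' h
    refine hkey x hx x' hx' ?_
    rw [← h, div_self (ha x hx).1.ne]
    exact nn_one hB y
  have hcard : (E.image a).card = E.card := Finset.card_image_of_injOn fun x hx x' hx' h =>
    hinj x hx x' hx' h
  have h1 := hAA p F ζ hζ A c hL y D0 B.two hD0 hfin (E.image a) (fun b hb => by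
    obtain ⟨x, hx, rfl⟩ := Finset.mem_image.1 hb
    exact (ha x hx).1) (fun b hb b' hb' hne h => by
    obtain ⟨x, hx, rfl⟩ := Finset.mem_image.1 hb
    obtain ⟨x', hx', rfl⟩ := Finset.mem_image.1 hb'
    exact hne (by rw [hkey x hx x' hx' h]))
  rw [hcard] at h1
  obtain ⟨C, hC⟩ : ∃ C, C = ∑ᶠ v, c v := ⟨_, rfl⟩
  rw [← hC] at h1 ⊢
  obtain ⟨R, hR⟩ : ∃ R, R = InfinitePlace.nrComplexPlaces F := ⟨_, rfl⟩
  rw [← hR] at hf ⊢
  have hp1 : (1 : ℝ) ≤ p := by exact_mod_cast hp.one_le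
  have hp0 : (0 : ℝ) < p := by linarith
  have h4 : (E.card : ℝ) ≤ (p : ℝ) ^ (nS F y + C) := by exact_mod_cast h1
  have h5 : (p : ℝ) ^ (nS F y + C) * (p : ℝ) ^ R ≤ (p : ℝ) ^ C * (p : ℝ) ^ f := by
    rw [← pow_add, ← pow_add]
    exact pow_le_pow_right₀ hp1 (by omega)
  have h6 : (0 : ℝ) < (p : ℝ) ^ f := by positivity
  have h7 : (0 : ℝ) < (p : ℝ) ^ R := by positivity
  rw [one_div, inv_pow, div_le_iff₀ h6]
  have h8 : (p : ℝ) ^ C * ((p : ℝ) ^ R)⁻¹ * (p : ℝ) ^ f = ((p : ℝ) ^ C * (p : ℝ) ^ f) / (p : ℝ) ^ R := by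
    rw [div_eq_mul_inv]
    ring
  rw [h8, le_div_iff₀ h7]
  exact (mul_le_mul_of_nonneg_right h4 h7.le).trans h5

end Pool.Agent.Q14.LK
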