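import Pool.Agent.Q7.LK.Stm

/-!
# Project LK (helper7), job LA (helper14): saturation
-/

set_option autoImplicit false

namespace Pool.Agent.Q14.LK

open Finset
open Pool.Agent.Q7.LK

namespace LAa

/-- the reduction of the matrices -/
noncomputable def ph (p : ℕ) [Fact p.Prime] (n : ℕ) : Matrix (Fin n) (Fin n) ℤ →+* Matrix (Fin n) (Fin n) ℤ_[p] :=
  (Int.castRingHom ℤ_[p]).mapMatrix

/-- the matrices which map `R` into itself -/
def St (p : ℕ) [Fact p.Prime] (n : ℕ) (R : Submodule ℤ_[p] (Fin n → ℤ_[p])) : Subring (Matrix (Fin n) (Fin n) ℤ) where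
  carrier := {M | ∀ x ∈ R, Matrix.vecMul x (ph p n M) ∈ R}
  mul_mem' := by
    intro a b ha hb x hx
    rw [map_mul, ← Matrix.vecMul_vecMul]
    exact hb _ (ha x hx)
  one_mem' := by
    intro x hx
    rw [map_one, Matrix.vecMul_one]
    exact hx
  add_mem' := by
    intro a b ha hb x hx
    rw [map_add, Matrix.vecMul_add]
    exact R.add_mem (ha x hx) (hb x hx)
  zero_mem' := by
    intro x hx
    rw [map_zero, Matrix.vecMul_zero]
    exact R.zero_mem
  neg_mem' := by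
    intro a ha x hx
    rw [map_neg, Matrix.vecMul_neg]
    exact R.neg_mem (ha x hx)

/-- the power `p - 1` -/
theorem pow_pred (p : ℕ) [Fact p.Prime] (n : ℕ) (T : Matrix (Fin n) (Fin n) ℤ) (hT : ∑ i ∈ range p, T ^ i = 0) :
    ∃ C : Matrix (Fin n) (Fin n) ℤ, (T - 1) ^ (p - 1) = (p : ℤ) • C := by
  have hp : p.Prime := Fact.out
  obtain ⟨f, hf⟩ : ∃ f : Polynomial ℤ, f = (Polynomial.X - 1) ^ (p - 1) - ∑ i ∈ range p, Polynomial.X ^ i := ⟨_, rfl⟩
  have h1 : f.map (Int.castRingHom (ZMod p)) = 0 := by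
    have h2 : (Polynomial.X - 1 : Polynomial (ZMod p)) * (Polynomial.X - 1) ^ (p - 1) =
        (Polynomial.X - 1) * ∑ i ∈ range p, Polynomial.X ^ i := by
      rw [mul_geom_sum, ← pow_succ', Nat.sub_add_cancel hp.one_le, sub_pow_char, one_pow]
    have h3 : (Polynomial.X - 1 : Polynomial (ZMod p)) ≠ 0 := by
      have := Polynomial.X_sub_C_ne_zero (1 : ZMod p)
      rwa [Polynomial.C_1] at this
    have h4 := mul_left_cancel₀ h3 h2
    rw [hf]
    simp only [Polynomial.map_sub, Polynomial.map_pow, Polynomial.map_X, Polynomial.map_one, Polynomial.map_sum]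
    rw [h4, sub_self]
  have h2 : Polynomial.C (p : ℤ) ∣ f := by
    rw [Polynomial.C_dvd_iff_dvd_coeff]
    intro i
    have h3 := congrArg (fun g => Polynomial.coeff g i) h1
    simp only [Polynomial.coeff_map, Polynomial.coeff_zero] at h3
    exact (ZMod.intCast_zmod_eq_zero_iff_dvd _ _).1 h3
  obtain ⟨g, hg⟩ := h2
  refine ⟨Polynomial.aeval T g, ?_⟩
  have h3 := congrArg (fun g => Polynomial.aeval T g) (hf.symm.trans hg)
  simp only [map_sub, map_mul, map_pow, map_sum, Polynomial.aeval_X, map_one, hT, sub_zero, Polynomial.aeval_C] at h3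
  rw [h3, Algebra.smul_def]

theorem div_all (p : ℕ) [Fact p.Prime] (x : ℤ_[p]) (h : ∀ m : ℕ, (p : ℤ_[p]) ^ m ∣ x) : x = 0 := by
  by_contra hx
  have h1 : 0 < ‖x‖ := norm_pos_iff.2 hx
  obtain ⟨k, hk⟩ := PadicInt.exists_pow_neg_lt p h1
  have h2 : x ∈ (Ideal.span {(p : ℤ_[p]) ^ k} : Ideal ℤ_[p]) := Ideal.mem_span_singleton.2 (h k)
  rw [← PadicInt.norm_le_pow_iff_mem_span_pow] at h2
  exact absurd h2 (not_le.2 hk)

theorem vecMul_p (p : ℕ) [Fact p.Prime] (n : ℕ) (b : Fin n → ℤ_[p]) (m : ℕ) (C : Matrix (Fin n) (Fin n) ℤ) :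
    Matrix.vecMul b (ph p n ((m : ℤ) • C)) = (m : ℤ_[p]) • Matrix.vecMul b (ph p n C) := by
  have h1 : ph p n ((m : ℤ) • C) = (m : ℤ_[p]) • ph p n C := by
    ext i j
    have h2 : (ph p n ((m : ℤ) • C)) i j = (((m : ℤ) * C i j : ℤ) : ℤ_[p]) := rfl
    have h3 : ((m : ℤ_[p]) • ph p n C) i j = (m : ℤ_[p]) * ((C i j : ℤ) : ℤ_[p]) := rfl
    rw [h2, h3]
    push_cast
    rfl
  rw [h1, Matrix.vecMul_smul]

end LAa

open LAa

/-- **JOB LA** -/
theorem la : S_LA := by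
  intro p _ n B hB R hR hsat hne
  have hp : p.Prime := Fact.out
  obtain ⟨T, hT⟩ : ∃ T : Matrix (Fin n) (Fin n) ℤ, T = 1 + B := ⟨_, rfl⟩
  rw [← hT] at hB
  have hBT : B = T - 1 := by rw [hT, add_sub_cancel_left]
  obtain ⟨Q, hQ⟩ : ∃ Q : Matrix (Fin n) (Fin n) ℤ, Q = -∑ i ∈ range p, ∑ j ∈ range i, T ^ j := ⟨_, rfl⟩
  have h1 : (∑ i ∈ range p, ∑ j ∈ range i, T ^ j) * B = -(p : Matrix (Fin n) (Fin n) ℤ) := by
    rw [hBT, sum_mul, sum_congr rfl fun i _ => geom_sum_mul T i, sum_sub_distrib, hB, sum_const, card_range,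
      nsmul_eq_mul, mul_one, zero_sub]
  have h2 : B * (∑ i ∈ range p, ∑ j ∈ range i, T ^ j) = -(p : Matrix (Fin n) (Fin n) ℤ) := by
    rw [hBT, mul_sum, sum_congr rfl fun i _ => mul_geom_sum T i, sum_sub_distrib, hB, sum_const, card_range,
      nsmul_eq_mul, mul_one, zero_sub]
  have hQB : Q * B = (p : Matrix (Fin n) (Fin n) ℤ) := by rw [hQ, neg_mul, h1, neg_neg]
  have hBQ : B * Q = (p : Matrix (Fin n) (Fin n) ℤ) := by rw [hQ, mul_neg, h2, neg_neg]
  refine ⟨?_, Q, hQB⟩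
  by_contra hcon
  push Not at hcon
  apply hne
  have hphB : B.map (Int.cast : ℤ → ℤ_[p]) = ph p n B := rfl
  rw [hphB] at hR hcon
  have hBS : B ∈ St p n R := hR
  have hTS : T ∈ St p n R := by rw [hT]; exact (St p n R).add_mem (St p n R).one_mem hBS
  have hQS : Q ∈ St p n R := by
    rw [hQ]
    exact neg_mem (sum_mem fun i _ => sum_mem fun j _ => pow_mem hTS j)
  have hstep : ∀ a ∈ R, ∃ b ∈ R, a = Matrix.vecMul b (ph p n B) := by
    intro a ha
    obtain ⟨b, hb⟩ := hcon a ha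
    refine ⟨b, hsat b ?_, hb⟩
    have h3 : (p : ℤ_[p]) • b = Matrix.vecMul a (ph p n Q) := by
      rw [hb, Matrix.vecMul_vecMul, ← map_mul, hBQ]
      have h4 := vecMul_p p n b p 1
      rw [map_one, Matrix.vecMul_one] at h4
      rw [← h4]
      congr 2
      rw [zsmul_eq_mul, mul_one]
      push_cast
      rfl
    rw [h3]
    exact hQS a ha
  have hpow : ∀ j : ℕ, ∀ a ∈ R, ∃ b ∈ R, a = Matrix.vecMul b (ph p n (B ^ j)) := by
    intro j
    induction j with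
    | zero =>
      intro a ha
      exact ⟨a, ha, by rw [pow_zero, map_one, Matrix.vecMul_one]⟩
    | succ j ih =>
      intro a ha
      obtain ⟨b, hb, h3⟩ := ih a ha
      obtain ⟨b', hb', h4⟩ := hstep b hb
      refine ⟨b', hb', ?_⟩
      rw [h3, h4, Matrix.vecMul_vecMul, ← map_mul, ← pow_succ']
  obtain ⟨C, hC⟩ := pow_pred p n T hB
  rw [← hBT] at hC
  rw [Submodule.eq_bot_iff]
  intro a ha
  funext i
  apply div_all p
  intro m
  obtain ⟨b, hb, h3⟩ := hpow ((p - 1) * m) a ha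
  have h4 : B ^ ((p - 1) * m) = ((p ^ m : ℕ) : ℤ) • C ^ m := by
    rw [pow_mul, hC, smul_pow]
    push_cast
    rfl
  rw [h4, vecMul_p] at h3
  refine ⟨Matrix.vecMul b (ph p n (C ^ m)) i, ?_⟩
  rw [h3]
  simp only [Pi.smul_apply, smul_eq_mul]
  push_cast
  rfl

end Pool.Agent.Q14.LK
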