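import Pool.Agent.Q14.LK.Bas

/-!
# Project LK (helper7), job SH1 (helper14): when does some `D` fit?
-/

set_option autoImplicit false

namespace Pool.Agent.Q14.LK

open NumberField IsDedekindDomain Finset
open Pool.Agent.Q7.LK
open Pool.Agent.Q283.LQ (Sm nS)

/-- **JOB SH1** -/
theorem sh1 : S_BAS → S_SH1 := by
  classical
  intro hB p _ F _ _ ζ hζ y f u r π g B D0 ψ w hD0 hw k z q hq hS τ hτ
  have hp : p.Prime := Fact.out
  obtain ⟨P, hP⟩ : ∃ P, P = ∏ j, π (q j) ^ (z j).val := ⟨_, rfl⟩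
  have hπ : ∀ j, π (q j) ≠ 0 := fun j => (B.po (q j) (hS j)).1
  have hP0 : P ≠ 0 := by
    rw [hP]
    exact prod_ne_zero_iff.2 fun j _ => pow_ne_zero _ (hπ j)
  have hvP : ∀ v, ¬ Sm y v → vl p v P = ∑ i, if q i = v then z i else 0 := by
    intro v hv
    rw [hP, vl_prod hB v _ _ fun j _ => pow_ne_zero _ (hπ j)]
    refine sum_congr rfl fun j _ => ?_
    rw [vl_pow hB v (hπ j), (B.po (q j) (hS j)).2 v hv, ZMod.natCast_val, ZMod.cast_id', id]
    by_cases h : q j = v
    · rw [if_pos h, if_pos h.symm, mul_one]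
    · rw [if_neg h, if_neg fun h' => h h'.symm, mul_zero]
  -- the class of the product
  have hPc : Nn p y (P * mon r (∑ j, z j • τ.1 j)) := by
    have h1 : Nn p y (∏ j, (π (q j) * mon r (τ.1 j)) ^ (z j).val) := by
      apply nn_prod hB
      intro j _
      apply nn_npow hB
      have h2 := B.pc (q j) (hS j)
      have h3 : (fun l => sy p ζ (q j) (u l)) = τ.1 j := funext fun l => hτ.1 j l
      rwa [h3] at h2
    have h2 : ∀ j, ∃ x : F, x ≠ 0 ∧ (mon r (τ.1 j)) ^ (z j).val = mon r (z j • τ.1 j) * x ^ p :=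
      fun j => mon_smul B.re (z j) (τ.1 j)
    choose x hx h3 using h2
    obtain ⟨t, ht, h4⟩ := mon_sum B.re univ (fun j => z j • τ.1 j)
    have h5 : ∏ j, (π (q j) * mon r (τ.1 j)) ^ (z j).val =
        P * mon r (∑ j, z j • τ.1 j) * (t * ∏ j, x j) ^ p := by
      rw [prod_congr rfl fun j _ => mul_pow (π (q j)) (mon r (τ.1 j)) (z j).val, prod_mul_distrib, ← hP,
        prod_congr rfl fun j _ => h3 j, prod_mul_distrib, h4, mul_pow, prod_pow]
      ring
    rw [h5] at h1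
    exact nn_of_mul_pp hB (mul_ne_zero ht (prod_ne_zero_iff.2 fun j _ => hx j)) h1
  have key : ∀ D, Fits p y D0 z q D → ∑ j, z j • τ.1 j = ψ ∧ IsPow p (D * mon u w / P) := by
    intro D hD
    have hDP : ∀ v, ¬ Sm y v → vl p v (D / P) = 0 := by
      intro v hv
      rw [vl_div hB v hD.ne hP0, hvP v hv, hD.ram v hv, sub_self]
    obtain ⟨c, hc⟩ := B.full (D / P) (div_ne_zero hD.ne hP0) hDP
    have hmc : mon u c ≠ 0 := mon_ne B.ue c
    have h1 : Nn p y (D / P * mon u c) := nn_of_isPow hB y (mul_ne_zero (div_ne_zero hD.ne hP0) hmc) hc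
    have h2 : Nn p y (D / D0) := ⟨div_ne_zero hD.ne hD0, hD.loc⟩
    have h3 := nn_div hB (nn_mul hB h1 hPc) h2
    have hD' := hD.ne
    have h4 : D / P * mon u c * (P * mon r (∑ j, z j • τ.1 j)) / (D / D0) =
        D0 * mon r (∑ j, z j • τ.1 j) * mon u c := by
      field_simp
    rw [h4] at h3
    obtain ⟨x, _, hx⟩ := B.cls D0 hD0
    have h6 := hx (∑ j, z j • τ.1 j, c) h3
    have h7 := hx (ψ, w) hw
    have h8 : ((∑ j, z j • τ.1 j, c) : (Fin f → ZMod p) × (Fin f → ZMod p)) = (ψ, w) := h6.trans h7.symm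
    have h9 : ∑ j, z j • τ.1 j = ψ := congrArg Prod.fst h8
    have h10 : c = w := congrArg Prod.snd h8
    refine ⟨h9, ?_⟩
    have h11 : D * mon u w / P = D / P * mon u c := by rw [h10]; ring
    rw [h11]
    exact hc
  refine ⟨⟨fun ⟨D, hD⟩ => (key D hD).1, fun h => ?_⟩, fun D hD => by rw [← hP]; exact (key D hD).2⟩
  have hmw : mon u w ≠ 0 := mon_ne B.ue w
  have hmr : mon r ψ ≠ 0 := mon_ne B.re ψ
  have hNn : Nn p y (P / mon u w / D0) := by
    have h1 := nn_div hB hPc hw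
    rw [h] at h1
    have h2 : P * mon r ψ / (D0 * mon r ψ * mon u w) = P / mon u w / D0 := by
      field_simp
    rwa [h2] at h1
  refine ⟨P / mon u w, div_ne_zero hP0 hmw, fun v hv => ?_, hNn.2⟩
  rw [vl_div hB v hP0 hmw, hvP v hv, vl_mon hB B.ue v (fun l => B.uo l v hv) w, sub_zero]

end Pool.Agent.Q14.LK
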